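import Pool.Agent.Helper32.Cap7

/-! Infinitesimal rigidity of irreducible representations of mapping class groups and the
point-pushing subgroup. -/

set_option autoImplicit false

namespace Pool.Agent.Results.MP_65c98c_al.PointPushing

open Matrix

theorem result {G : Type} [Group G] (hperf : commutator G = ⊤) (K N : Subgroup G) [K.Normal]
    [N.Normal] (hKN : K ≤ N) (hfin : K.relIndex N ≠ 0) (d : ℕ)
    -- an integral representation which preserves a bilinear form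
    (A : G →* Matrix (Fin d) (Fin d) ℤ) (J : Matrix (Fin d) (Fin d) ℝ)
    (hJ : ∀ g, ((A g).map (Int.cast : ℤ → ℝ))ᵀ * J * (A g).map (Int.cast : ℤ → ℝ) = J)
    -- an equivariant homomorphism from `K` onto the lattice
    (h : G → Fin d → ℤ) (hmul : ∀ k ∈ K, ∀ l ∈ K, h (k * l) = h k + h l)
    (hsurj : ∀ v, ∃ k ∈ K, h k = v) (heq : ∀ g, ∀ k ∈ K, h (g * k * g⁻¹) = A g *ᵥ h k)
    -- the kernel of `h`
    (hker : ∀ k ∈ K, h k = 0 → ∃ m : ℕ, 0 < m ∧ k ^ m ∈ ⁅K, K⁆ ⊔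
      Subgroup.closure {c | c ∈ K ∧ ((∀ g, g * c * g⁻¹ * c⁻¹ ∈ ⁅K, K⁆) ∨
        ∃ M : Subgroup G, ⁅M, M⁆ = M ∧ N ⊔ M = ⊤ ∧ (∀ x ∈ M, x * c = c * x) ∧
          ∃ w ∈ Subgroup.center G, c * w ∈ M)})
    -- enough multitwists
    (ht : ∀ x : Fin d → ℝ, x ≠ 0 → ∃ t : G, (A t - 1) * (A t - 1) = 0 ∧
      x ⬝ᵥ (J *ᵥ (((A t - 1).map (Int.cast : ℤ → ℝ)) *ᵥ x)) ≠ 0)
    -- an irreducible representation which is trivial on `K`
    {V : Type} [AddCommGroup V] [Module ℂ V] [FiniteDimensional ℂ V] [Nontrivial V]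
    (ρ : G →* Module.End ℂ V)
    (hρ : ∀ F : Submodule ℂ V, (∀ g, ∀ v ∈ F, ρ g v ∈ F) → F = ⊥ ∨ F = ⊤)
    (hK : ∀ k ∈ K, ρ k = 1) :
    (∀ z : G → Module.End ℂ V, (∀ g g', z (g * g') = z g + ρ g * z g' * ρ g⁻¹) →
      ∀ k ∈ K, z k = 0) ∧
    ((∀ z : G → Module.End ℂ V, (∀ g g', z (g * g') = z g + ρ g * z g' * ρ g⁻¹) →
        ∃ u, ∀ g, z g = u - ρ g * u * ρ g⁻¹) ↔
      ∀ z : G → Module.End ℂ V, (∀ g g', z (g * g') = z g + ρ g * z g' * ρ g⁻¹) →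
        (∀ n ∈ N, z n = 0) →
        ∃ u, (∀ n ∈ N, ρ n * u = u * ρ n) ∧ ∀ g, z g = u - ρ g * u * ρ g⁻¹) ∧
    ((∀ F : Submodule ℂ V, (∀ n ∈ N, ∀ v ∈ F, ρ n v ∈ F) → F = ⊥ ∨ F = ⊤) →
      ∀ z : G → Module.End ℂ V, (∀ g g', z (g * g') = z g + ρ g * z g' * ρ g⁻¹) →
        ∃ u, ∀ g, z g = u - ρ g * u * ρ g⁻¹) := by
  have hv := Pool.Agent.Helper32.Cap.vanish2 hperf K N hfin A J hJ h hmul hsurj heq hker ht ρ hρ hK
  exact ⟨hv, Pool.Agent.Helper32.Cap.rigid_iff K N hKN hfin hK hv,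
    Pool.Agent.Helper32.Cap.rigid_of_irr hperf K N hKN hfin hK hv⟩

end Pool.Agent.Results.MP_65c98c_al.PointPushing
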